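import Pool.Agent.Helper28.Ram.Goals

/-!
# LINE: the degree bound of the polynomials and the sum over the line
-/

namespace Pool.Agent.Helper67.Ram

open Pool.Agent.Helper65.LinSpace Pool.Agent.Helper28.Ram Finset

section

variable {p : ℕ}

/-- `f` is the evaluation of a polynomial of degree at most `d`. -/
def PD (d : ℕ) (f : ZMod p → ZMod p) : Prop :=
  ∃ Q : Polynomial (ZMod p), Q.natDegree ≤ d ∧ ∀ x, Q.eval x = f x

theorem PD.mono {d e : ℕ} {f : ZMod p → ZMod p} (h : PD d f) (hde : d ≤ e) : PD e f := by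
  obtain ⟨Q, h1, h2⟩ := h
  exact ⟨Q, h1.trans hde, h2⟩

theorem PD.const (d : ℕ) (c : ZMod p) : PD d (fun _ => c) :=
  ⟨Polynomial.C c, by simp, by simp⟩

theorem PD.line (u v : ZMod p) : PD 1 (fun x => x * u + v) := by
  refine ⟨Polynomial.X * Polynomial.C u + Polynomial.C v, ?_, fun x => by
    rw [Polynomial.eval_add, Polynomial.eval_mul, Polynomial.eval_X, Polynomial.eval_C,
      Polynomial.eval_C]⟩
  refine (Polynomial.natDegree_add_le _ _).trans ?_
  refine max_le ?_ ?_
  · exact (Polynomial.natDegree_mul_C_le _ _).trans (Polynomial.natDegree_X_le)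
  · rw [Polynomial.natDegree_C]
    omega

theorem PD.add {d : ℕ} {f g : ZMod p → ZMod p} (hf : PD d f) (hg : PD d g) :
    PD d (fun x => f x + g x) := by
  obtain ⟨Q, h1, h2⟩ := hf
  obtain ⟨R, h3, h4⟩ := hg
  refine ⟨Q + R, (Polynomial.natDegree_add_le _ _).trans (max_le h1 h3), fun x => ?_⟩
  rw [Polynomial.eval_add, h2, h4]

theorem PD.sub {d : ℕ} {f g : ZMod p → ZMod p} (hf : PD d f) (hg : PD d g) :
    PD d (fun x => f x - g x) := by
  obtain ⟨Q, h1, h2⟩ := hf
  obtain ⟨R, h3, h4⟩ := hg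
  refine ⟨Q - R, (Polynomial.natDegree_sub_le _ _).trans (max_le h1 h3), fun x => ?_⟩
  rw [Polynomial.eval_sub, h2, h4]

theorem PD.mul {d e : ℕ} {f g : ZMod p → ZMod p} (hf : PD d f) (hg : PD e g) :
    PD (d + e) (fun x => f x * g x) := by
  obtain ⟨Q, h1, h2⟩ := hf
  obtain ⟨R, h3, h4⟩ := hg
  refine ⟨Q * R, (Polynomial.natDegree_mul_le).trans (add_le_add h1 h3), fun x => ?_⟩
  rw [Polynomial.eval_mul, h2, h4]

theorem PD.sum {ι : Type} (s : Finset ι) {d : ℕ} {f : ι → ZMod p → ZMod p}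
    (h : ∀ i ∈ s, PD d (f i)) : PD d (fun x => ∑ i ∈ s, f i x) := by
  classical
  induction s using Finset.induction_on with
  | empty => simpa using PD.const d (0 : ZMod p)
  | insert a s ha ih =>
    simp only [sum_insert ha]
    exact (h a (mem_insert_self a s)).add (ih fun i hi => h i (mem_insert_of_mem hi))

theorem PD.prod {ι : Type} (s : Finset ι) {d : ι → ℕ} {f : ι → ZMod p → ZMod p}
    (h : ∀ i ∈ s, PD (d i) (f i)) : PD (∑ i ∈ s, d i) (fun x => ∏ i ∈ s, f i x) := by
  classical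
  induction s using Finset.induction_on with
  | empty => simpa using PD.const 0 (1 : ZMod p)
  | insert a s ha ih =>
    simp only [sum_insert ha, prod_insert ha]
    exact (h a (mem_insert_self a s)).mul (ih fun i hi => h i (mem_insert_of_mem hi))

theorem pd_eqc (σ q : ℕ) {X : ℕ → ZMod p → ZMod p} (h : ∀ o, PD 1 (X o)) :
    PD σ (fun x => Mach.eqc p σ q (fun o => X o x)) := by
  have h1 := PD.prod (range σ) (d := fun _ => 1)
    (f := fun o x => if dig 2 q o = 1 then X o x else 1 - X o x) (fun o _ => by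
      by_cases hq : dig 2 q o = 1
      · simp only [hq, if_true]
        exact h o
      · simp only [hq, if_false]
        exact (PD.const 1 1).sub (h o))
  rw [sum_const, card_range, smul_eq_mul, mul_one] at h1
  exact h1

theorem pd_hr (m : Mach) (a v : ℕ) (h : ZMod p) {X : ℕ → ℕ → ZMod p → ZMod p}
    (hX : ∀ i o, PD 1 (X i o)) (e : ℕ) :
    PD ((e + 1) * m.σ) (fun x => m.hr p a v h (fun i o => X i o x) e) := by
  induction e with
  | zero => exact PD.const _ h
  | succ e ih =>
    have hE := pd_eqc (p := p) m.σ a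
      (X := fun o => X (e / m.b) (m.σ + 2 * m.σ * (e % m.b) + o)) (fun o => hX _ _)
    have hE' := pd_eqc (p := p) m.σ v
      (X := fun o => X (e / m.b) (m.σ + 2 * m.σ * (e % m.b) + m.σ + o)) (fun o => hX _ _)
    have hle : m.σ ≤ (e + 1) * m.σ := Nat.le_mul_of_pos_left _ (Nat.succ_pos e)
    have h1 := hE.mul ((hE'.mono hle).sub ih)
    have h2 : m.σ + (e + 1) * m.σ = (e + 1 + 1) * m.σ := by ring
    rw [h2] at h1
    exact (ih.mono (Nat.mul_le_mul_right _ (Nat.le_succ _))).add h1

theorem pd_fct (m : Mach) (i a y r : ℕ) (D : ℕ → ZMod p) {X : ℕ → ℕ → ZMod p → ZMod p}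
    (hX : ∀ i o, PD 1 (X i o)) (hi : i ≤ m.G) (hr : r < m.b) :
    PD ((m.G + 1) * m.b * m.σ + (if r = 0 then m.σ else 0))
      (fun x => m.fct p i a y r D (fun i o => X i o x)) := by
  have h1 : PD (if r = 0 then m.σ else 0) (fun x =>
      if r = 0 then Mach.eqc p m.σ (dig (2 ^ m.σ) y 0) (if i = 0 then D else fun o => X (i - 1) o x)
      else 1) := by
    by_cases hr0 : r = 0
    · simp only [hr0, if_true]
      by_cases hi0 : i = 0
      · simp only [hi0, if_true]
        exact PD.const _ _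
      · simp only [hi0, if_false]
        exact pd_eqc _ _ (fun o => hX _ _)
    · simp only [hr0, if_false]
      exact PD.const _ _
  have h2 : PD ((i * m.b + r + 1) * m.σ) (fun x =>
      m.hr p (m.ta i a y r) (m.tv y r) (Mach.eqc p m.σ (m.tv y r) fun o => D (2 * m.σ + o))
        (fun i' o => if i' = i then ((m.outc i a y o : ℕ) : ZMod p) else X i' o x)
        (i * m.b + r)) := by
    refine pd_hr m _ _ _
      (X := fun i' o x => if i' = i then ((m.outc i a y o : ℕ) : ZMod p) else X i' o x) ?_ _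
    intro i' o
    by_cases h : i' = i
    · simp only [h, if_true]
      exact PD.const _ _
    · simp only [h, if_false]
      exact hX _ _
  have h3 : (i * m.b + r + 1) * m.σ ≤ (m.G + 1) * m.b * m.σ := by
    refine Nat.mul_le_mul_right _ ?_
    have h4 : i * m.b ≤ m.G * m.b := Nat.mul_le_mul_right _ hi
    have h5 : (m.G + 1) * m.b = m.G * m.b + m.b := by ring
    omega
  have h6 := h1.mul (h2.mono h3)
  rw [Nat.add_comm] at h6
  exact h6

theorem pd_P (m : Mach) (k i a o : ℕ) {X : ℕ → ℕ → ZMod p → ZMod p}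
    (hX : ∀ i o, PD 1 (X i o)) (hi : i ≤ m.G) :
    PD (m.σ * (m.b ^ 2 * (m.G + 1) + 1)) (fun x => m.P p k i a (fun i o => X i o x) o) := by
  refine PD.sum (range (2 ^ (m.σ * (m.b + 1))))
    (f := fun y x => (∏ r ∈ range m.b, m.fct p i a y r (m.T p k (m.ta i a y r))
      (fun i o => X i o x)) * ((m.outc i a y o : ℕ) : ZMod p)) fun y _ => ?_
  have h1 := PD.prod (range m.b)
    (f := fun r x => m.fct p i a y r (m.T p k (m.ta i a y r)) (fun i o => X i o x))
    (d := fun r => (m.G + 1) * m.b * m.σ + (if r = 0 then m.σ else 0))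
    (fun r hr => pd_fct m i a y r _ hX hi (mem_range.1 hr))
  have h2 := h1.mul (PD.const 0 ((m.outc i a y o : ℕ) : ZMod p))
  refine h2.mono ?_
  rw [sum_add_distrib, sum_const, card_range, smul_eq_mul]
  have h3 : ∑ r ∈ range m.b, (if r = 0 then m.σ else 0) ≤ m.σ := by
    rw [sum_ite_eq']
    split_ifs <;> omega
  have h4 : m.b * ((m.G + 1) * m.b * m.σ) + m.σ = m.σ * (m.b ^ 2 * (m.G + 1) + 1) := by ring
  omega

end

theorem LINE : LINE_stmt := by
  intro m p _ hp k i a X V' o hi
  obtain ⟨Q, hQ, hQe⟩ := pd_P (p := p) m k i a o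
    (X := fun i' o x => x * X i' o + V' i' o) (fun i' o => PD.line _ _) hi
  have h1 := sum_eval_eq p (P := Q) (lt_of_le_of_lt hQ hp)
  simp only [hQe] at h1
  rw [h1]
  congr 2
  funext i' o'
  ring

end Pool.Agent.Helper67.Ram
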